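import Pool.Agent.Helper97RZ.Lift

/-!
# Asymptotic form of the lower bound coming from a certificate
-/

namespace Pool.Agent.Helper97RZ

open Finset Filter Topology

/-- Exponential beats quadratic. -/
theorem exists_good_n (ρ : ℝ) (hρ : 1 < ρ) (B : ℕ) :
    ∃ n : ℕ, 1 ≤ n ∧ ((2 * n * B + 1 : ℕ) : ℝ) ^ 2 ≤ ρ ^ n := by
  have h1 : Tendsto (fun n : ℕ => (n : ℝ) ^ 2 / ρ ^ n) atTop (𝓝 0) :=
    tendsto_pow_const_div_const_pow_of_one_lt 2 hρ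
  have hpos : (0 : ℝ) < 1 / ((2 * B + 1 : ℕ) : ℝ) ^ 2 := by positivity
  have h2 := (h1.eventually (gt_mem_nhds hpos)).and (eventually_ge_atTop 1)
  obtain ⟨n, h3, h4⟩ := h2.exists
  refine ⟨n, h4, ?_⟩
  have hρn : 0 < ρ ^ n := by positivity
  have h5 : (n : ℝ) ^ 2 * ((2 * B + 1 : ℕ) : ℝ) ^ 2 < ρ ^ n := by
    rw [div_lt_div_iff₀ hρn (by positivity)] at h3
    linarith
  have h6 : ((2 * n * B + 1 : ℕ) : ℝ) ≤ (n : ℝ) * ((2 * B + 1 : ℕ) : ℝ) := by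
    push_cast
    have : (1 : ℝ) ≤ n := by exact_mod_cast h4
    nlinarith
  calc ((2 * n * B + 1 : ℕ) : ℝ) ^ 2 ≤ ((n : ℝ) * ((2 * B + 1 : ℕ) : ℝ)) ^ 2 := by
        gcongr
    _ = (n : ℝ) ^ 2 * ((2 * B + 1 : ℕ) : ℝ) ^ 2 := by ring
    _ ≤ ρ ^ n := h5.le

theorem asymptotic {ι η : Type*} [Fintype ι] [Fintype η] [Nonempty ι] (m : η → ℕ)
    (d : ι → η → ℕ) (a b : ι → ℤ) (B : ℕ) (ha : ∀ i, |a i| ≤ B) (hb : ∀ i, |b i| ≤ B)
    (hm : ∀ j, 0 < m j) (hd : ∀ i j, d i j < m j) (hc : Cert m d a b)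
    (hM : 2 ≤ ∏ j, m j) (c : ℝ)
    (hcl : c < Real.log (Fintype.card ι) / Real.log ((∏ j, m j : ℕ) : ℝ)) :
    ∃ N₀ : ℕ, ∀ N : ℕ, N₀ ≤ N → ∃ A : Finset ℕ, A ⊆ Icc 1 N ∧ StrongFree A ∧
      (N : ℝ) ^ c ≤ A.card := by
  classical
  -- reduce to `0 ≤ c`
  wlog hc0 : 0 ≤ c with Hw
  · have hM1 : (1 : ℝ) < ((∏ j, m j : ℕ) : ℝ) := by exact_mod_cast hM
    have hlogM : 0 < Real.log ((∏ j, m j : ℕ) : ℝ) := Real.log_pos hM1
    refine ⟨1, fun N hN => ⟨{1}, ?_, ?_, ?_⟩⟩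
    · intro t ht
      rw [Finset.mem_singleton] at ht
      subst ht
      exact Finset.mem_Icc.mpr ⟨le_rfl, hN⟩
    · intro x hx y hy z hz w hw _
      rw [Finset.mem_singleton] at hx hy hz hw
      subst hx hy hz hw
      exact ⟨rfl, rfl, rfl⟩
    · simp only [Finset.card_singleton, Nat.cast_one]
      exact Real.rpow_le_one_of_one_le_of_nonpos (by exact_mod_cast hN) (by linarith)
  set M : ℕ := ∏ j, m j with hMdef
  set q : ℕ := Fintype.card ι with hq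
  have hM1 : (1 : ℝ) < (M : ℝ) := by exact_mod_cast hM
  have hM0 : (0 : ℝ) < (M : ℝ) := by linarith
  have hlogM : 0 < Real.log (M : ℝ) := Real.log_pos hM1
  have hq0 : (0 : ℝ) < (q : ℝ) := by
    have : 0 < q := Fintype.card_pos
    exact_mod_cast this
  obtain ⟨c', hc1, hc2⟩ := exists_between hcl
  have hc'0 : 0 < c' := lt_of_le_of_lt hc0 hc1
  -- the ratio q / M^c' > 1
  have hMc : (M : ℝ) ^ c' < q := by
    rw [lt_div_iff₀ hlogM] at hc2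
    rw [← Real.exp_log hq0, Real.rpow_def_of_pos hM0]
    apply Real.exp_lt_exp.mpr
    linarith
  have hMcpos : 0 < (M : ℝ) ^ c' := Real.rpow_pos_of_pos hM0 _
  obtain ⟨n, hn1, hn2⟩ := exists_good_n ((q : ℝ) / (M : ℝ) ^ c') ((one_lt_div hMcpos).mpr hMc) B
  -- so K ≥ M^(n c')
  have hKbig : ∀ K : ℕ, q ^ n ≤ K * (2 * n * B + 1) ^ 2 → ((M : ℝ) ^ c') ^ n ≤ K := by
    intro K hK
    have h1 : ((q : ℝ)) ^ n ≤ K * ((2 * n * B + 1 : ℕ) : ℝ) ^ 2 := by exact_mod_cast hK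
    have h2 : (0 : ℝ) ≤ K := Nat.cast_nonneg K
    have h3 : ((q : ℝ)) ^ n ≤ K * ((q : ℝ) / (M : ℝ) ^ c') ^ n :=
      h1.trans (mul_le_mul_of_nonneg_left hn2 h2)
    rw [div_pow, mul_div_assoc', le_div_iff₀ (by positivity)] at h3
    have hqn : (0 : ℝ) < (q : ℝ) ^ n := by positivity
    have h4 : (q : ℝ) ^ n * ((M : ℝ) ^ c') ^ n ≤ (q : ℝ) ^ n * K := by linarith
    exact le_of_mul_le_mul_left h4 hqn
  set E : ℕ := 4 ^ (n * Fintype.card η) with hE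
  have hE1 : 1 ≤ E := Nat.one_le_pow _ _ (by norm_num)
  set P : ℕ := M ^ n with hP
  have hP2 : 2 ≤ P := by
    calc 2 ≤ M := hM
      _ = M ^ 1 := (pow_one M).symm
      _ ≤ M ^ n := Nat.pow_le_pow_right (by omega) hn1
  have hP1 : (1 : ℝ) < (P : ℝ) := by exact_mod_cast hP2
  have hP0 : (0 : ℝ) < (P : ℝ) := by linarith
  -- choose L₀ with E^c * P^c ≤ P^((c'-c) L) for L ≥ L₀
  have hlim : Tendsto (fun L : ℕ => ((P : ℝ) ^ (c' - c)) ^ L) atTop atTop :=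
    tendsto_pow_atTop_atTop_of_one_lt (Real.one_lt_rpow hP1 (by linarith))
  obtain ⟨L₀, hL₀⟩ := (hlim.eventually (eventually_ge_atTop (((E : ℝ) * P) ^ c))).exists_forall_of_atTop
  refine ⟨E * P ^ L₀, fun N hN => ?_⟩
  -- choose L maximal with E * P^L ≤ N
  have hNpos : 0 < N := lt_of_lt_of_le (by positivity) hN
  let L := Nat.log P (N / E)
  have hNE : P ^ L₀ ≤ N / E := (Nat.le_div_iff_mul_le (by omega)).mpr (by rw [mul_comm]; exact hN)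
  have hNE0 : N / E ≠ 0 := by
    have : 0 < P ^ L₀ := by positivity
    omega
  have hL1 : P ^ L ≤ N / E := Nat.pow_log_le_self P hNE0
  have hL2 : N / E < P ^ (L + 1) := Nat.lt_pow_succ_log_self (by omega) _
  have hLge : L₀ ≤ L := by
    have : P ^ L₀ < P ^ (L + 1) := lt_of_le_of_lt hNE hL2
    have := (Nat.pow_lt_pow_iff_right (by omega : 1 < P)).mp this
    omega
  have hLN : E * P ^ L ≤ N := by
    rw [mul_comm]; exact (Nat.le_div_iff_mul_le (by omega)).mp hL1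
  have hNlt : N < E * P ^ (L + 1) := by
    rw [mul_comm]; exact (Nat.div_lt_iff_lt_mul (by omega)).mp hL2
  obtain ⟨A, K, hK, hA1, hA2, hA3⟩ := finite_level m d a b B ha hb hm hd hc n L
  refine ⟨A, hA1.trans (Finset.Icc_subset_Icc_right hLN), hA3, ?_⟩
  have hK' := hKbig K hK
  rw [hA2]
  push_cast
  have hNr : (N : ℝ) ≤ (E : ℝ) * P * (P : ℝ) ^ L := by
    have : (N : ℝ) ≤ ((E * P ^ (L + 1) : ℕ) : ℝ) := by exact_mod_cast hNlt.le
    push_cast at this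
    calc (N : ℝ) ≤ (E : ℝ) * (P : ℝ) ^ (L + 1) := this
      _ = (E : ℝ) * P * (P : ℝ) ^ L := by ring
  have hEP : (0 : ℝ) ≤ (E : ℝ) * P := by positivity
  calc (N : ℝ) ^ c ≤ ((E : ℝ) * P * (P : ℝ) ^ L) ^ c :=
        Real.rpow_le_rpow (Nat.cast_nonneg N) hNr hc0
    _ = ((E : ℝ) * P) ^ c * ((P : ℝ) ^ L) ^ c := Real.mul_rpow hEP (by positivity)
    _ ≤ ((P : ℝ) ^ (c' - c)) ^ L * ((P : ℝ) ^ L) ^ c := by
        apply mul_le_mul_of_nonneg_right (hL₀ L hLge)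
        positivity
    _ = ((P : ℝ) ^ c') ^ L := by
        rw [← Real.rpow_natCast ((P : ℝ) ^ (c' - c)) L, ← Real.rpow_mul hP0.le,
          ← Real.rpow_natCast (P : ℝ) L, ← Real.rpow_mul hP0.le, ← Real.rpow_add hP0,
          ← Real.rpow_natCast ((P : ℝ) ^ c') L, ← Real.rpow_mul hP0.le]
        congr 1
        ring
    _ = (((M : ℝ) ^ c') ^ n) ^ L := by
        congr 1
        rw [hP]
        push_cast
        rw [← Real.rpow_natCast (M : ℝ) n, ← Real.rpow_mul hM0.le,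
          ← Real.rpow_natCast ((M : ℝ) ^ c') n, ← Real.rpow_mul hM0.le, mul_comm]
    _ ≤ (K : ℝ) ^ L := by
        apply pow_le_pow_left₀ (by positivity) hK'

end Pool.Agent.Helper97RZ
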