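import Pool.Agent.Helper97RZ.Asym

/-!
# Fifteen vectors of `(ℤ/5)³` with a certificate
-/

namespace Pool.Agent.Helper97RZ

/-- Coordinates of the fifteen digit vectors, packed in base 8. -/
def dig15 (i : Fin 15) (j : Fin 3) : ℕ :=
  1482297569080237331986271352343251403865 / 8 ^ (3 * i.val + j.val) % 8

/-- The potential, packed in base 1024 with offset 512. -/
def pot15 (i : Fin 15) : ℤ :=
  ((678051375694859817271184728330498214473553382 / 1024 ^ i.val % 1024 : ℕ) : ℤ) - 512

theorem cert15 : Cert (fun _ : Fin 3 => 5) dig15 (fun i => -3 * pot15 i) pot15 := by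
  unfold Cert
  decide +kernel

theorem dig15_lt : ∀ i j, dig15 i j < 5 := by decide +kernel

theorem pot15_le : ∀ i, |pot15 i| ≤ ((1000 : ℕ) : ℤ) := by decide +kernel

theorem pot15_le' : ∀ i, |-3 * pot15 i| ≤ ((1000 : ℕ) : ℤ) := by decide +kernel

end Pool.Agent.Helper97RZ
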