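import Pool.Agent.Helper97RZ.Cert15

/-!
# Ruzsa's equation `x + 3y = 2z + 2w`: `f(N) ≥ N^{0.56}` for all large `N`
-/

namespace Pool.Agent.Helper97RZ.Half

open Finset

/-- `A` is admissible: no pairwise distinct `x, y, z, w ∈ A` with `x + 3y = 2z + 2w`. -/
def Admissible (A : Finset ℕ) : Prop :=
  ∀ x ∈ A, ∀ y ∈ A, ∀ z ∈ A, ∀ w ∈ A, x ≠ y → x ≠ z → x ≠ w → y ≠ z → y ≠ w → z ≠ w →
    x + 3 * y ≠ 2 * z + 2 * w

/-- `f(N)`: the largest size of an admissible subset of `{1, …, N}`. -/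
noncomputable def f (N : ℕ) : ℕ :=
  sSup {k : ℕ | ∃ A : Finset ℕ, A ⊆ Icc 1 N ∧ Admissible A ∧ A.card = k}

theorem le_f {N : ℕ} {A : Finset ℕ} (hA : A ⊆ Icc 1 N) (h : Admissible A) : A.card ≤ f N := by
  apply le_csSup
  · refine ⟨N, ?_⟩
    rintro k ⟨B, hB, _, rfl⟩
    simpa using Finset.card_le_card hB
  · exact ⟨A, hA, h, rfl⟩

/-- Large sets with only the solutions `x = y = z = w`. -/
theorem strong (c : ℝ) (hc : c < Real.log 15 / Real.log 125) : ∃ N₀ : ℕ, ∀ N : ℕ, N₀ ≤ N →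
    ∃ A : Finset ℕ, A ⊆ Icc 1 N ∧ Helper97RZ.StrongFree A ∧ (N : ℝ) ^ c ≤ A.card := by
  have hcard : Fintype.card (Fin 15) = 15 := Fintype.card_fin 15
  have hprod : (∏ _j : Fin 3, 5 : ℕ) = 125 := by simp
  exact Helper97RZ.asymptotic (fun _ : Fin 3 => 5) Helper97RZ.dig15
    (fun i => -3 * Helper97RZ.pot15 i) Helper97RZ.pot15 1000 Helper97RZ.pot15_le'
    Helper97RZ.pot15_le (fun _ => by norm_num) Helper97RZ.dig15_lt Helper97RZ.cert15
    (by rw [hprod]; norm_num) c (by rw [hprod, hcard]; exact_mod_cast hc)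

/-- The growth exponent of `f` is at least `log 15 / log 125 = 0.5608…`, which is more than
`0.56`: for every real `c` below it, `N ^ c ≤ f N` for all large `N`. -/
theorem result :
    (14 / 25 : ℝ) < Real.log 15 / Real.log 125 ∧
    ∀ c : ℝ, c < Real.log 15 / Real.log 125 → ∃ N₀ : ℕ, ∀ N : ℕ, N₀ ≤ N →
      (N : ℝ) ^ c ≤ f N := by
  refine ⟨?_, ?_⟩
  · rw [lt_div_iff₀ (Real.log_pos (by norm_num))]
    have h1 : (14 : ℝ) * Real.log 125 < 25 * Real.log 15 := by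
      have h2 : Real.log ((125 : ℝ) ^ 14) < Real.log ((15 : ℝ) ^ 25) :=
        Real.log_lt_log (by positivity) (by norm_num)
      rw [Real.log_pow, Real.log_pow] at h2
      exact_mod_cast h2
    linarith
  · intro c hc
    obtain ⟨N₀, hN₀⟩ := strong c hc
    refine ⟨N₀, fun N hN => ?_⟩
    obtain ⟨A, hA1, hA2, hA3⟩ := hN₀ N hN
    refine hA3.trans ?_
    have : A.card ≤ f N := le_f hA1 (by
      intro x hx y hy z hz w hw h1 _ _ _ _ _ h
      exact h1 (hA2 x hx y hy z hz w hw h).1)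
    exact_mod_cast this

end Pool.Agent.Helper97RZ.Half
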