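import Mathlib

/-!
# Lower bounds for Ruzsa's equation `x + 3y = 2z + 2w` from finite certificates

Helper file for `MP_d03285_co`.
-/

namespace Pool.Agent.Helper97RZ

open Finset

/-- Only the solutions of `x + 3y = 2z + 2w` with `x = y = z = w`. -/
def StrongFree (A : Finset ℕ) : Prop :=
  ∀ x ∈ A, ∀ y ∈ A, ∀ z ∈ A, ∀ w ∈ A, x + 3 * y = 2 * z + 2 * w → x = y ∧ y = z ∧ z = w

/-- Embedding of a box of vectors into `ℕ` reflecting the equation. -/
theorem embedFin : ∀ (K : ℕ) (R : Fin K → ℕ), (∀ i, 0 < R i) →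
    ∃ φ : (Fin K → ℕ) → ℕ, (∀ v, (∀ i, v i < R i) → φ v < ∏ i, (4 * R i)) ∧
      ∀ x y z w : Fin K → ℕ, (∀ i, x i < R i) → (∀ i, y i < R i) → (∀ i, z i < R i) →
        (∀ i, w i < R i) → φ x + 3 * φ y = 2 * φ z + 2 * φ w →
        ∀ i, x i + 3 * y i = 2 * z i + 2 * w i := by
  intro K
  induction K with
  | zero =>
    intro R _
    exact ⟨fun _ => 0, by simp, fun _ _ _ _ _ _ _ _ _ i => i.elim0⟩
  | succ K ih =>
    intro R hR
    obtain ⟨φ, h1, h2⟩ := ih (fun i => R i.succ) (fun i => hR _)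
    refine ⟨fun v => v 0 + 4 * R 0 * φ (fun i => v i.succ), ?_, ?_⟩
    · intro v hv
      have h3 := h1 (fun i => v i.succ) (fun i => hv _)
      rw [Fin.prod_univ_succ]
      have h4 := hv 0
      calc v 0 + 4 * R 0 * φ (fun i => v i.succ)
          < 4 * R 0 + 4 * R 0 * φ (fun i => v i.succ) := by omega
        _ = 4 * R 0 * (φ (fun i => v i.succ) + 1) := by ring
        _ ≤ 4 * R 0 * ∏ i : Fin K, (4 * R i.succ) := Nat.mul_le_mul_left _ h3
    · intro x y z w hx hy hz hw he
      simp only at he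
      have hx0 := hx 0
      have hy0 := hy 0
      have hz0 := hz 0
      have hw0 := hw 0
      set X := φ (fun i => x i.succ)
      set Y := φ (fun i => y i.succ)
      set Z := φ (fun i => z i.succ)
      set W := φ (fun i => w i.succ)
      have hpos : 0 < 4 * R 0 := by have := hR 0; omega
      have e1 : (x 0 + 3 * y 0) + (4 * R 0) * (X + 3 * Y) =
          (2 * z 0 + 2 * w 0) + (4 * R 0) * (2 * Z + 2 * W) := by linarith
      have e2 : x 0 + 3 * y 0 < 4 * R 0 := by omega
      have e3 : 2 * z 0 + 2 * w 0 < 4 * R 0 := by omega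
      have e4 := congrArg (· % (4 * R 0)) e1
      simp only [Nat.add_mul_mod_self_left, Nat.mod_eq_of_lt e2, Nat.mod_eq_of_lt e3] at e4
      have e5 : (4 * R 0) * (X + 3 * Y) = (4 * R 0) * (2 * Z + 2 * W) := by omega
      have e6 := Nat.eq_of_mul_eq_mul_left hpos e5
      have e7 := h2 (fun i => x i.succ) (fun i => y i.succ) (fun i => z i.succ)
        (fun i => w i.succ) (fun i => hx _) (fun i => hy _) (fun i => hz _) (fun i => hw _) e6
      intro i
      refine Fin.cases e4 (fun j => e7 j) i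

theorem embed {κ : Type*} [Fintype κ] (R : κ → ℕ) (hR : ∀ i, 0 < R i) :
    ∃ φ : (κ → ℕ) → ℕ, (∀ v, (∀ i, v i < R i) → φ v < ∏ i, (4 * R i)) ∧
      ∀ x y z w : κ → ℕ, (∀ i, x i < R i) → (∀ i, y i < R i) → (∀ i, z i < R i) →
        (∀ i, w i < R i) → φ x + 3 * φ y = 2 * φ z + 2 * φ w →
        ∀ i, x i + 3 * y i = 2 * z i + 2 * w i := by
  classical
  let e := Fintype.equivFin κ
  obtain ⟨φ, h1, h2⟩ := embedFin (Fintype.card κ) (fun i => R (e.symm i)) (fun i => hR _)
  refine ⟨fun v => φ (fun i => v (e.symm i)), ?_, ?_⟩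
  · intro v hv
    have h3 := h1 (fun i => v (e.symm i)) (fun i => hv _)
    rwa [Equiv.prod_comp e.symm (fun i => 4 * R i)] at h3
  · intro x y z w hx hy hz hw he i
    have h3 := h2 _ _ _ _ (fun i => hx _) (fun i => hy _) (fun i => hz _) (fun i => hw _) he (e i)
    simpa using h3

/-- Value of a word of length `L` in base `m`, least significant digit first. -/
def val {β κ : Type*} (m : κ → ℕ) (δ : β → κ → ℕ) : (L : ℕ) → (Fin L → β) → κ → ℕ
  | 0, _, _ => 0
  | L + 1, t, i => δ (t 0) i + m i * val m δ L (fun l => t l.succ) i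

theorem val_lt {β κ : Type*} (m : κ → ℕ) (δ : β → κ → ℕ) (hδ : ∀ b i, δ b i < m i) :
    ∀ (L : ℕ) (t : Fin L → β) (i : κ), val m δ L t i < m i ^ L := by
  intro L
  induction L with
  | zero => intro t i; simp [val]
  | succ L ih =>
    intro t i
    have h1 := ih (fun l => t l.succ) i
    have h2 := hδ (t 0) i
    simp only [val]
    calc δ (t 0) i + m i * val m δ L (fun l => t l.succ) i
        < m i + m i * val m δ L (fun l => t l.succ) i := by omega
      _ = m i * (val m δ L (fun l => t l.succ) i + 1) := by ring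
      _ ≤ m i * m i ^ L := Nat.mul_le_mul_left _ h1
      _ = m i ^ (L + 1) := by ring

theorem val_free {β κ : Type*} (m : κ → ℕ) (δ : β → κ → ℕ) (hm : ∀ i, 0 < m i)
    (hfree : ∀ x y z w : β, (∀ i, (δ x i + 3 * δ y i) ≡ (2 * δ z i + 2 * δ w i) [MOD m i]) →
      x = y ∧ y = z ∧ z = w) :
    ∀ (L : ℕ) (x y z w : Fin L → β),
      (∀ i, val m δ L x i + 3 * val m δ L y i = 2 * val m δ L z i + 2 * val m δ L w i) →
      x = y ∧ y = z ∧ z = w := by
  intro L
  induction L with
  | zero =>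
    intro x y z w _
    exact ⟨Subsingleton.elim _ _, Subsingleton.elim _ _, Subsingleton.elim _ _⟩
  | succ L ih =>
    intro x y z w h
    simp only [val] at h
    have h0 : x 0 = y 0 ∧ y 0 = z 0 ∧ z 0 = w 0 := by
      apply hfree
      intro i
      have h1 := h i
      have h2 : (δ (x 0) i + 3 * δ (y 0) i) + m i * (val m δ L (fun l => x l.succ) i +
          3 * val m δ L (fun l => y l.succ) i) = (2 * δ (z 0) i + 2 * δ (w 0) i) +
          m i * (2 * val m δ L (fun l => z l.succ) i + 2 * val m δ L (fun l => w l.succ) i) := by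
        linarith
      have h3 := congrArg (· % (m i)) h2
      simp only [Nat.add_mul_mod_self_left] at h3
      exact h3
    obtain ⟨h4, h5, h6⟩ := h0
    have h7 := ih (fun l => x l.succ) (fun l => y l.succ) (fun l => z l.succ)
      (fun l => w l.succ) (by
        intro i
        have h1 := h i
        rw [h4, h5, h6] at h1
        have h2 : m i * (val m δ L (fun l => x l.succ) i + 3 * val m δ L (fun l => y l.succ) i) =
          m i * (2 * val m δ L (fun l => z l.succ) i + 2 * val m δ L (fun l => w l.succ) i) := by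
          linarith
        exact Nat.eq_of_mul_eq_mul_left (hm i) h2)
    obtain ⟨h8, h9, h10⟩ := h7
    refine ⟨funext fun l => ?_, funext fun l => ?_, funext fun l => ?_⟩
    · exact Fin.cases h4 (fun j => congrFun h8 j) l
    · exact Fin.cases h5 (fun j => congrFun h9 j) l
    · exact Fin.cases h6 (fun j => congrFun h10 j) l

/-- A free system of digit vectors gives large strongly free sets of integers. -/
theorem lift {β κ : Type*} [Fintype β] [Fintype κ] (m : κ → ℕ) (δ : β → κ → ℕ)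
    (hm : ∀ i, 0 < m i) (hδ : ∀ b i, δ b i < m i)
    (hfree : ∀ x y z w : β, (∀ i, (δ x i + 3 * δ y i) ≡ (2 * δ z i + 2 * δ w i) [MOD m i]) →
      x = y ∧ y = z ∧ z = w) (L : ℕ) :
    ∃ A : Finset ℕ, A ⊆ Icc 1 (4 ^ Fintype.card κ * (∏ i, m i) ^ L) ∧
      A.card = Fintype.card β ^ L ∧ StrongFree A := by
  classical
  obtain ⟨φ, h1, h2⟩ := embed (fun i => m i ^ L) (fun i => pow_pos (hm i) L)
  let Φ : (Fin L → β) → ℕ := fun t => φ (val m δ L t) + 1
  have key : ∀ x y z w : Fin L → β, Φ x + 3 * Φ y = 2 * Φ z + 2 * Φ w →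
      x = y ∧ y = z ∧ z = w := by
    intro x y z w h
    apply val_free m δ hm hfree L
    apply h2 _ _ _ _ (val_lt m δ hδ L x) (val_lt m δ hδ L y) (val_lt m δ hδ L z)
      (val_lt m δ hδ L w)
    simp only [Φ] at h
    omega
  have inj : Function.Injective Φ := by
    intro x y h
    exact (key x x x y (by rw [← h]; ring)).2.2
  refine ⟨Finset.univ.image Φ, ?_, ?_, ?_⟩
  · intro a ha
    obtain ⟨t, _, rfl⟩ := Finset.mem_image.mp ha
    have h3 := h1 (val m δ L t) (val_lt m δ hδ L t)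
    have h4 : ∏ i, (4 * m i ^ L) = 4 ^ Fintype.card κ * (∏ i, m i) ^ L := by
      rw [Finset.prod_mul_distrib, Finset.prod_const, Finset.prod_pow, Finset.card_univ]
    rw [h4] at h3
    simp only [Φ, Finset.mem_Icc]
    omega
  · rw [Finset.card_image_of_injective _ inj, Finset.card_univ, Fintype.card_fun,
      Fintype.card_fin]
  · intro x hx y hy z hz w hw h
    obtain ⟨x, _, rfl⟩ := Finset.mem_image.mp hx
    obtain ⟨y, _, rfl⟩ := Finset.mem_image.mp hy
    obtain ⟨z, _, rfl⟩ := Finset.mem_image.mp hz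
    obtain ⟨w, _, rfl⟩ := Finset.mem_image.mp hw
    obtain ⟨h3, h4, h5⟩ := key x y z w h
    exact ⟨by rw [h3], by rw [h4], by rw [h5]⟩

/-- The classes of words with fixed potentials. -/
theorem typeClass {ι : Type*} [Fintype ι] (a b : ι → ℤ) (B : ℕ) (ha : ∀ i, |a i| ≤ B)
    (hb : ∀ i, |b i| ≤ B) (n : ℕ) :
    ∃ W : Finset (Fin n → ι), Fintype.card ι ^ n ≤ W.card * (2 * n * B + 1) ^ 2 ∧
      ∃ s t : ℤ, ∀ u ∈ W, ∑ i, a (u i) = s ∧ ∑ i, b (u i) = t := by
  classical
  let g : (Fin n → ι) → ℤ × ℤ := fun u => (∑ i, a (u i), ∑ i, b (u i))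
  let T : Finset (ℤ × ℤ) := (Icc (-(n * B : ℤ)) (n * B)) ×ˢ (Icc (-(n * B : ℤ)) (n * B))
  have hT : T.card = (2 * n * B + 1) ^ 2 := by
    simp only [T, Finset.card_product, Int.card_Icc]
    have : ((n * B : ℤ) + 1 - -(n * B : ℤ)).toNat = 2 * n * B + 1 := by
      have : ((n * B : ℤ) + 1 - -(n * B : ℤ)) = ((2 * n * B + 1 : ℕ) : ℤ) := by push_cast; ring
      rw [this, Int.toNat_natCast]
    rw [this]; ring
  have bd : ∀ (c : ι → ℤ), (∀ i, |c i| ≤ B) → ∀ u : Fin n → ι, |∑ i, c (u i)| ≤ n * B := by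
    intro c hc u
    calc |∑ i, c (u i)| ≤ ∑ i, |c (u i)| := Finset.abs_sum_le_sum_abs _ _
      _ ≤ ∑ _i : Fin n, (B : ℤ) := Finset.sum_le_sum fun i _ => hc _
      _ = n * B := by simp
  have hmap : ∀ u ∈ (Finset.univ : Finset (Fin n → ι)), g u ∈ T := by
    intro u _
    have h1 := abs_le.mp (bd a ha u)
    have h2 := abs_le.mp (bd b hb u)
    simp only [T, g, Finset.mem_product, Finset.mem_Icc]
    exact ⟨h1, h2⟩
  have hne : T.Nonempty := by
    rw [← Finset.card_pos, hT]; positivity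
  obtain ⟨p, hp, hmax⟩ := Finset.exists_max_image T
    (fun p => (Finset.univ.filter (fun u => g u = p)).card) hne
  refine ⟨Finset.univ.filter (fun u => g u = p), ?_, p.1, p.2, ?_⟩
  · have h1 := Finset.card_eq_sum_card_fiberwise hmap
    rw [Finset.card_univ, Fintype.card_fun, Fintype.card_fin] at h1
    rw [h1, ← hT, mul_comm]
    calc ∑ b ∈ T, (Finset.univ.filter (fun u => g u = b)).card
        ≤ ∑ _b ∈ T, (Finset.univ.filter (fun u => g u = p)).card :=
          Finset.sum_le_sum fun q hq => hmax q hq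
      _ = T.card * (Finset.univ.filter (fun u => g u = p)).card := by
          rw [Finset.sum_const, smul_eq_mul]
  · intro u hu
    have h := (Finset.mem_filter.mp hu).2
    have h1 := congrArg Prod.fst h
    have h2 := congrArg Prod.snd h
    exact ⟨h1, h2⟩

/-- Certificate: digit vectors `d` modulo `m` with potentials `a`, `b` such that every solution of
the equation modulo `m` among the digit vectors is trivial or has positive weight. -/
def Cert {ι η : Type*} (m : η → ℕ) (d : ι → η → ℕ) (a b : ι → ℤ) : Prop :=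
  ∀ x y z w : ι, (∀ j, (d x j + 3 * d y j) ≡ (2 * d z j + 2 * d w j) [MOD m j]) →
    (x = y ∧ y = z ∧ z = w) ∨ 0 < 2 * a x + 2 * b y - a z - b z - a w - b w

theorem finite_level {ι η : Type*} [Fintype ι] [Fintype η] (m : η → ℕ) (d : ι → η → ℕ)
    (a b : ι → ℤ) (B : ℕ) (ha : ∀ i, |a i| ≤ B) (hb : ∀ i, |b i| ≤ B)
    (hm : ∀ j, 0 < m j) (hd : ∀ i j, d i j < m j) (hc : Cert m d a b) (n L : ℕ) :
    ∃ (A : Finset ℕ) (K : ℕ), Fintype.card ι ^ n ≤ K * (2 * n * B + 1) ^ 2 ∧
      A ⊆ Icc 1 (4 ^ (n * Fintype.card η) * ((∏ j, m j) ^ n) ^ L) ∧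
      A.card = K ^ L ∧ StrongFree A := by
  classical
  obtain ⟨W, hW, s, t, hst⟩ := typeClass a b B ha hb n
  have hfree : ∀ x y z w : {u // u ∈ W}, (∀ i : Fin n × η,
      ((d (x.1 i.1) i.2) + 3 * d (y.1 i.1) i.2) ≡
        (2 * d (z.1 i.1) i.2 + 2 * d (w.1 i.1) i.2) [MOD m i.2]) → x = y ∧ y = z ∧ z = w := by
    intro x y z w h
    have h1 : ∀ i : Fin n, (x.1 i = y.1 i ∧ y.1 i = z.1 i ∧ z.1 i = w.1 i) ∨
        0 < 2 * a (x.1 i) + 2 * b (y.1 i) - a (z.1 i) - b (z.1 i) - a (w.1 i) - b (w.1 i) :=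
      fun i => hc _ _ _ _ (fun j => h (i, j))
    have h2 : ∑ i, (2 * a (x.1 i) + 2 * b (y.1 i) - a (z.1 i) - b (z.1 i) - a (w.1 i)
        - b (w.1 i)) = 0 := by
      simp only [Finset.sum_sub_distrib, Finset.sum_add_distrib, ← Finset.mul_sum]
      rw [(hst x.1 x.2).1, (hst y.1 y.2).2, (hst z.1 z.2).1, (hst z.1 z.2).2, (hst w.1 w.2).1,
        (hst w.1 w.2).2]
      ring
    have h3 : ∀ i ∈ (Finset.univ : Finset (Fin n)),
        0 ≤ 2 * a (x.1 i) + 2 * b (y.1 i) - a (z.1 i) - b (z.1 i) - a (w.1 i) - b (w.1 i) := by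
      intro i _
      rcases h1 i with ⟨e1, e2, e3⟩ | h
      · rw [e1, e2, e3]; linarith
      · exact h.le
    have h4 := (Finset.sum_eq_zero_iff_of_nonneg h3).mp h2
    have h5 : ∀ i : Fin n, (x.1 i = y.1 i ∧ y.1 i = z.1 i ∧ z.1 i = w.1 i) := by
      intro i
      rcases h1 i with h | h
      · exact h
      · have := h4 i (Finset.mem_univ i)
        omega
    exact ⟨Subtype.ext (funext fun i => (h5 i).1), Subtype.ext (funext fun i => (h5 i).2.1),
      Subtype.ext (funext fun i => (h5 i).2.2)⟩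
  obtain ⟨A, hA1, hA2, hA3⟩ := lift (β := {u // u ∈ W}) (κ := Fin n × η) (fun i => m i.2)
    (fun u i => d (u.1 i.1) i.2) (fun i => hm _) (fun b i => hd _ _) hfree L
  refine ⟨A, W.card, hW, ?_, ?_, hA3⟩
  · rw [Fintype.card_prod, Fintype.card_fin] at hA1
    have : ∏ i : Fin n × η, m i.2 = (∏ j, m j) ^ n := by
      rw [Fintype.prod_prod_type]
      simp
    rw [this] at hA1
    exact hA1
  · rw [hA2]; simp

end Pool.Agent.Helper97RZ
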